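import Mathlib
import Pool.Agent.Lib_MP_83934b_an.Proof

/-!
# Interval exchanges with flips have a measurable point realization

`S = ℝ/ℤ`, `Ĝ` is the group of the permutations of `S` that are Lebesgue measurable with Lebesgue
measurable inverse and preserve Lebesgue measure, `N` its normal subgroup of the almost everywhere
trivial ones, `p : Ĝ → G = Ĝ/N`.  We prove that `p` splits over `IET^⋈`, the group of the classes
of the piecewise isometric permutations.

Idea of the proof.  Let `Γ = IET^⋈` and let `Λ ≤ Γ` be the stabiliser of the two-sided germ at `0`
(the classes that are `y ↦ y` or `y ↦ -y` near `0`).  The circle embeds in the coset space `Γ/Λ` by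
`x ↦ (rotation by x)Λ`, and an element of `Γ`, with piecewise isometric representative `f`, maps
the coset of `x` to the coset of `f x` for all `x` outside a finite set.  Since `Γ/Λ` has
cardinality at most that of the continuum, there is a bijection from `Γ/Λ` to the circle which maps
the coset of `x` to `x` for all `x` outside a null set `M` of cardinality continuum: all the other
cosets are sent to `M`.  Transporting the action of `Γ` on `Γ/Λ` by this bijection gives the
required homomorphism `Γ → Ĝ`.
-/

open Pool.Agent.Lib_MP_83934b_an

namespace Pool.Agent.Results.MP_83934b_an.Split

/-- **`p : Ĝ → G` splits over `IET^⋈`**: there is a group homomorphism `σ : IET^⋈ → Ĝ` with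
`p (σ g) = g` for every `g ∈ IET^⋈`. -/
theorem result : ∃ σ : IETflip →* Ghat, ∀ g : IETflip, p (σ g) = (g : G) :=
  main

end Pool.Agent.Results.MP_83934b_an.Split
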